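import Mathlib
import Pool.Agent.H90.P.Ns
import Pool.Agent.H90.P.Helper386.D5V.Helper386_FF_Place

/-! FF4, part a: restriction of places, the valuation ring is a DVR. -/

set_option autoImplicit false
set_option linter.all false
set_option linter.overlappingInstances false

open Module FF

namespace FF

section
variable {k K K' : Type*} [Field k] [Field K] [Field K'] [Algebra k K] [Algebra k K'] [Algebra K K']
  [IsScalarTower k K K']

end

section dvr

variable {k K : Type*} [Field k] [Field K] [Algebra k K] (P : Place k K)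

theorem Place.isDVR : IsDiscreteValuationRing P.O := by
  obtain ⟨t, ht0, ht⟩ := P.surj
  have htr : P.Reg t := Or.inr (by omega)
  have hirr : Irreducible (⟨t, htr⟩ : P.O) := by
    constructor
    · rw [P.isUnit_O_iff htr]
      rintro ⟨_, h⟩
      omega
    · rintro ⟨a, ha⟩ ⟨b, hb⟩ hab
      have hab' : t = a * b := congrArg Subtype.val hab
      have ha0 : a ≠ 0 := by rintro rfl; apply ht0; simp [hab']
      have hb0 : b ≠ 0 := by rintro rfl; apply ht0; simp [hab']
      have h1 := P.ord_mul ha0 hb0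
      rw [← hab', ht] at h1
      have h2 := (P.reg_iff ha0).1 ha
      have h3 := (P.reg_iff hb0).1 hb
      rw [P.isUnit_O_iff ha, P.isUnit_O_iff hb]
      by_cases h4 : P.ord a = 0
      · exact Or.inl ⟨ha0, h4⟩
      · exact Or.inr ⟨hb0, by omega⟩
  apply IsDiscreteValuationRing.ofHasUnitMulPowIrreducibleFactorization
  refine ⟨⟨t, htr⟩, hirr, ?_⟩
  rintro ⟨f, hf⟩ hf0
  have hf0' : f ≠ 0 := fun h => hf0 (Subtype.ext h)
  have h1 := (P.reg_iff hf0').1 hf
  refine ⟨(P.ord f).toNat, ?_⟩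
  have hu : P.ord (f * (t ^ (P.ord f).toNat)⁻¹) = 0 := by
    rw [P.ord_mul hf0' (inv_ne_zero (pow_ne_zero _ ht0)), P.ord_inv, P.ord_pow, ht]
    omega
  have hu0 : f * (t ^ (P.ord f).toNat)⁻¹ ≠ 0 := mul_ne_zero hf0' (inv_ne_zero (pow_ne_zero _ ht0))
  have hur : P.Reg (f * (t ^ (P.ord f).toNat)⁻¹) := Or.inr hu.ge
  obtain ⟨u, hu'⟩ := (P.isUnit_O_iff hur).2 ⟨hu0, hu⟩
  refine ⟨u, ?_⟩
  apply Subtype.ext
  have h2 : ((u : P.O) : K) = f * (t ^ (P.ord f).toNat)⁻¹ := congrArg Subtype.val hu'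
  show ((⟨t, htr⟩ : P.O) ^ (P.ord f).toNat * (u : P.O) : P.O).1 = f
  have h3 : (((⟨t, htr⟩ : P.O) ^ (P.ord f).toNat * (u : P.O) : P.O) : K) =
      t ^ (P.ord f).toNat * ((u : P.O) : K) := by
    push_cast
    rfl
  refine h3.trans ?_
  rw [h2]
  field_simp

end dvr

end FF
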