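import Mathlib
import Pool.Agent.H90.P.Ns
import Pool.Agent.H90.P.Helper386.D5V.Helper386_FF_Fund
import Pool.Agent.H90.P.Helper386.D5V.Helper386_FF_Place
import Pool.Agent.H90.P.Helper386.D5V.Helper399_OverDefs

/-! FF4, part b: cyclic cubic extensions. -/

set_option autoImplicit false
set_option linter.all false
set_option linter.overlappingInstances false

open Module FF

namespace FF

section
variable {k K K' : Type*} [Field k] [Field K] [Field K'] [Algebra k K] [Algebra k K'] [Algebra K K']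
  [IsScalarTower k K K']

/-- A place regular on the valuation ring of `w0` and positive at a uniformiser lies over `w0`. -/
theorem over_of_reg (w : Place k K') (w0 : Place k K) (t : K) (ht0 : t ≠ 0) (ht : w0.ord t = 1)
    (h1 : ∀ f : K, w0.Reg f → w.Reg (algebraMap K K' f)) (h2 : 0 < w.ord (algebraMap K K' t)) :
    Over w w0 (w.ord (algebraMap K K' t)).toNat := by
  refine ⟨by omega, fun f => ?_⟩
  by_cases hf : f = 0
  · subst hf
    rw [map_zero, w.ord_zero, w0.ord_zero, mul_zero]
  have hu0 : f * t ^ (-(w0.ord f)) ≠ 0 := mul_ne_zero hf (zpow_ne_zero _ ht0)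
  have hu : w0.ord (f * t ^ (-(w0.ord f))) = 0 := by
    rw [w0.ord_mul hf (zpow_ne_zero _ ht0), w0.ord_zpow, ht]; ring
  have h3 := h1 _ (Or.inr hu.ge)
  have h4 := h1 (f * t ^ (-(w0.ord f)))⁻¹ (Or.inr (by rw [w0.ord_inv, hu]; simp))
  have hu0' : algebraMap K K' (f * t ^ (-(w0.ord f))) ≠ 0 :=
    (map_ne_zero (algebraMap K K')).2 hu0
  have h5 : w.ord (algebraMap K K' (f * t ^ (-(w0.ord f)))) = 0 := by
    have h6 := (w.reg_iff hu0').1 h3
    rw [map_inv₀] at h4
    have h7 := (w.reg_iff (inv_ne_zero hu0')).1 h4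
    rw [w.ord_inv] at h7
    omega
  have hf' : algebraMap K K' f ≠ 0 := by simpa using hf
  have ht' : algebraMap K K' t ≠ 0 := by simpa using ht0
  rw [map_mul, map_zpow₀, w.ord_mul hf' (zpow_ne_zero _ ht'), w.ord_zpow] at h5
  have h6 : ((w.ord (algebraMap K K' t)).toNat : ℤ) = w.ord (algebraMap K K' t) := by omega
  rw [h6]
  linarith

/-- the residue degree -/
theorem relf_eq {w : Place k K'} {w0 : Place k K} {e : ℕ} (h : Over w w0 e) :
    @Place.relf k K' _ _ _ w w0.O _ ((algebraMap K K').comp w0.O.subtype).toAlgebra =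
      @finrank w0.RF w.RF _ _ h.resMap.toRingHom.toAlgebra.toModule := by
  let _ : Algebra w0.O K' := ((algebraMap K K').comp w0.O.subtype).toAlgebra
  let _ : Algebra w0.RF w.RF := h.resMap.toRingHom.toAlgebra
  unfold Place.relf
  have hmap : ∀ a : w0.O, w.red (algebraMap w0.O K' a) = h.resMap (w0.red a) := by
    intro a
    rw [h.resMap_red a.2]
    rfl
  have hcl : ∀ c, h.resMap c ∈ Subfield.closure
      (Set.range fun a : w0.O => w.red (algebraMap w0.O K' a)) := by
    intro c
    obtain ⟨f, hf, rfl⟩ := w0.red_surjective c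
    apply Subfield.subset_closure
    exact ⟨⟨f, hf⟩, hmap ⟨f, hf⟩⟩
  let i0 : w0.RF →+* Subfield.closure (Set.range fun a : w0.O => w.red (algebraMap w0.O K' a)) :=
    h.resMap.toRingHom.codRestrict _ hcl
  have hi0 : Function.Bijective i0 := by
    refine ⟨i0.injective, ?_⟩
    rintro ⟨c, hc⟩
    have h1 : Subfield.closure (Set.range fun a : w0.O => w.red (algebraMap w0.O K' a)) ≤
        h.resMap.toRingHom.fieldRange := by
      rw [Subfield.closure_le]
      rintro _ ⟨a, rfl⟩
      exact ⟨w0.red a, (hmap a).symm⟩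
    obtain ⟨d, hd⟩ := h1 hc
    exact ⟨d, Subtype.ext hd⟩
  symm
  refine Algebra.finrank_eq_of_equiv_equiv (RingEquiv.ofBijective i0 hi0) (RingEquiv.refl _) ?_
  ext c
  rfl

end

end FF
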