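import Mathlib
import Pool.Agent.H90.P.Ns
import Pool.Agent.H90.P.Helper386.D5V.Helper386_FF_Fund
import Pool.Agent.H90.P.Helper386.D5V.Helper386_FF_Place
import Pool.Agent.H90.P.Helper386.D5V.Helper399_FF4a
import Pool.Agent.H90.P.Helper386.D5V.Helper399_FF4b
import Pool.Agent.H90.P.Helper386.D5V.Helper399_OverDefs

/-! FF4: places in cyclic cubic extensions. -/

set_option autoImplicit false
set_option linter.all false
set_option linter.overlappingInstances false

open Module FF

namespace FF

section
variable {k K K' : Type*} [Field k] [Field K] [Field K'] [Algebra k K] [Algebra k K'] [Algebra K K']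
  [IsScalarTower k K K']

/-- The finite set of places over `w0`. -/
theorem exists_places_over [CharZero k] [FiniteDimensional K K'] (w0 : Place k K) :
    ∃ (S : Finset (Place k K')) (T : Place k K' → ℕ),
      (∀ w e, Over w w0 e → w ∈ S) ∧
      (∀ w ∈ S, ∃ (e : ℕ) (h : Over w w0 e),
        T w = e * @finrank w0.RF w.RF _ _ h.resMap.toRingHom.toAlgebra.toModule ∧ 0 < T w) ∧
      ∑ w ∈ S, T w = finrank K K' := by
  classical
  obtain ⟨t, ht0, ht⟩ := w0.surj
  have htr : w0.Reg t := Or.inr (by omega)
  have : IsDiscreteValuationRing w0.O := w0.isDVR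
  have : CharZero K := charZero_of_injective_algebraMap (algebraMap k K).injective
  let iA : Algebra w0.O K' := ((algebraMap K K').comp w0.O.subtype).toAlgebra
  let ik : Algebra k w0.O := ((algebraMap k K).codRestrict w0.O (fun c => w0.reg_const c)).toAlgebra
  have : IsScalarTower w0.O K K' := IsScalarTower.of_algebraMap_eq fun _ => rfl
  have : IsScalarTower k w0.O K' := IsScalarTower.of_algebraMap_eq fun c => by
    rw [IsScalarTower.algebraMap_apply k K K']
    rfl
  have hirr : (⟨t, htr⟩ : w0.O) ≠ 0 := fun h => ht0 (congrArg Subtype.val h)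
  have hmax : (Ideal.span {(⟨t, htr⟩ : w0.O)}).IsMaximal := by
    have h1 : Ideal.span {(⟨t, htr⟩ : w0.O)} = IsLocalRing.maximalIdeal w0.O := by
      apply le_antisymm
      · rw [Ideal.span_le, Set.singleton_subset_iff]
        show (⟨t, htr⟩ : w0.O) ∈ IsLocalRing.maximalIdeal w0.O
        rw [IsLocalRing.mem_maximalIdeal, mem_nonunits_iff, w0.isUnit_O_iff htr]
        rintro ⟨_, h⟩
        omega
      · rintro ⟨f, hf⟩ hm
        rw [IsLocalRing.mem_maximalIdeal, mem_nonunits_iff, w0.isUnit_O_iff hf] at hm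
        rw [Ideal.mem_span_singleton]
        by_cases hf0 : f = 0
        · exact ⟨0, Subtype.ext (by simp [hf0])⟩
        · have h2 := (w0.reg_iff hf0).1 hf
          have h3 : w0.ord f ≠ 0 := fun h => hm ⟨hf0, h⟩
          have h4 : w0.Reg (f / t) := by
            right
            rw [w0.ord_div hf0 ht0, ht]
            omega
          refine ⟨⟨f / t, h4⟩, Subtype.ext ?_⟩
          show f = t * (f / t)
          field_simp
    rw [h1]
    infer_instance
  obtain ⟨S, hS, hpos, hsum⟩ := fundamental (k := k) (A := w0.O) (L := K') K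
    (⟨t, htr⟩ : w0.O) hirr hmax
  refine ⟨S, fun w => (w.ord (algebraMap w0.O K' ⟨t, htr⟩)).toNat * w.relf w0.O, ?_, ?_, hsum⟩
  · intro w e h
    rw [hS]
    refine ⟨fun a => ?_, ?_⟩
    · exact h.reg.2 a.2
    · have h1 : w.ord (algebraMap w0.O K' ⟨t, htr⟩) = e * w0.ord t := h.2 t
      rw [h1, ht]
      have := h.1
      omega
  · intro w hw
    have h1 := (hS w).1 hw
    have h2 : Over w w0 (w.ord (algebraMap K K' t)).toNat :=
      over_of_reg w w0 t ht0 ht (fun f hf => h1.1 ⟨f, hf⟩) h1.2
    refine ⟨_, h2, ?_, ?_⟩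
    · rw [← relf_eq h2]
      rfl
    · exact Nat.mul_pos h2.1 (hpos w hw)

end

end FF
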